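import Pool.Agent.H78.GS.TA3

/-!
# DIC. Almost all sheets have a displaced sheet, or almost none has (MP_c59857_nt)
-/

set_option autoImplicit false

open Finset Pool.Agent.H6.N4D

namespace Pool.Agent.H17.GSA

open Pool.Agent.H78.GS

/-- DIC. Almost all sheets have a displaced sheet, or almost none has. -/
theorem pf_DIC : T_DIC := by
  intro S e₁ κ ν z c θ F D hν hν1 h
  by_cases hz : z + ν / 4 ≤ ν
  · left
    refine (Par.cnt_mono fun t _ ht => ?_).trans h
    obtain ⟨j, hj, hi⟩ := ht
    refine ⟨j, hj, ?_⟩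
    by_contra hcon
    have h1 : |Gd S e₁ θ F D c t j - z| ≤ ν / 4 := not_lt.1 hcon
    have h2 : Gd S e₁ θ F D c t j ≤ ν := by
      have := (abs_le.1 h1).2
      linarith
    have h3 : ν < Gd S e₁ θ F D c t j := by
      unfold Gd
      rw [Finset.lt_fold_min]
      exact ⟨hν1, hi⟩
    linarith
  · right
    refine (Par.cnt_mono fun t _ ht => ?_).trans h
    obtain ⟨j, hj, i, hi, hds⟩ := ht
    refine ⟨j, hj, ?_⟩
    by_contra hcon
    have h1 : |Gd S e₁ θ F D c t j - z| ≤ ν / 4 := not_lt.1 hcon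
    have h2 : ν / 2 < Gd S e₁ θ F D c t j := by
      have := (abs_le.1 h1).1
      linarith
    have h3 : Gd S e₁ θ F D c t j ≤ ν / 2 := by
      unfold Gd
      rw [Finset.fold_min_le]
      exact Or.inr ⟨i, hi, hds⟩
    linarith

end Pool.Agent.H17.GSA
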